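import Pool.Agent.X186.PP.B

/-!
# Perron numbers whose trace lies in a cyclotomic field
-/

set_option autoImplicit false

open Polynomial Module

namespace Pool.Agent.X186.PP

open Pool.Agent.W738.SAL Pool.Agent.X186.MJ Pool.Agent.W963.GE

lemma perron_of {β : ℝ} (hβ : 1 < β) (hint : IsIntegral ℤ β)
    (hone : ∀ z : ℂ, aeval z (minpoly ℤ β) = 0 → z ≠ (β : ℂ) → ‖z‖ ≤ 1) : IsPerron β :=
  ⟨hβ, hint, fun z hz hne => (hone z hz hne).trans_lt hβ⟩

/-- reciprocal numbers with all other conjugates in the unit disc -/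
theorem main_rec {β : ℝ} (hβ : 1 < β) (hint : IsIntegral ℤ β)
    (hone : ∀ z : ℂ, aeval z (minpoly ℤ β) = 0 → z ≠ (β : ℂ) → ‖z‖ ≤ 1)
    (hrec : IsReciprocal β) (hc : CycTrace β) {p : ℕ} (hp : p.Prime) :
    16 * ((p : ℝ) / 4) ^ (Module.finrank ℚ (TF β)) ≤ (U β p + 2) ^ 2 := by
  have hP := perron_of hβ hint hone
  have hfact : Fact p.Prime := ⟨hp⟩
  have hab := isAbelian hc
  have hti := tt_integral hP hrec
  have htt : φ₀ β (tt β) = ((β + β⁻¹ : ℝ) : ℂ) := φ₀_apply β _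
  have htC : IsIntegral ℤ ((β + β⁻¹ : ℝ) : ℂ) := by
    rw [← htt]
    exact hti.map ((φ₀ β).restrictScalars ℤ)
  have hintQ : IsIntegral ℚ β := hint.tower_top
  have htint : IsIntegral ℚ (β + β⁻¹) := hintQ.add hintQ.inv
  obtain ⟨m, ζ, hm, hζ, hmem⟩ := hc
  obtain ⟨s, y, hs, hy, hcase⟩ := frob_or_inertia p htC m ζ hm hζ hmem
  obtain ⟨σ, hσ⟩ := exists_galois_conj hab htint hs
  have hp0 : (p : TF β) ≠ 0 := by exact_mod_cast hp.ne_zero
  have hpC : (p : ℂ) ≠ 0 := by exact_mod_cast hp.ne_zero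
  have h2U := U_two_le (show (0 : ℝ) < β by linarith) p
  rcases hcase with h | ⟨hne, h⟩
  · set w : TF β := (tt β ^ p - σ (tt β)) / p with hw
    have h1 : tt β ^ p - σ (tt β) = p * w := by
      rw [hw, mul_div_cancel₀ _ hp0]
    have h2 : φ₀ β w = y := by
      have h3 := congrArg (φ₀ β) h1
      rw [map_sub, map_pow, hσ, htt, map_mul, map_natCast, h] at h3
      exact (mul_left_cancel₀ hpC h3).symm
    have h4 : IsIntegral ℤ w := by
      rw [← h2] at hy
      exact (isIntegral_algHom_iff ((φ₀ β).restrictScalars ℤ) (φ₀ β).injective).1 hy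
    refine (criterion hβ hint hrec hone (p := p) (i := 1) (j := 0) (σ := σ) (Or.inl one_pos) h4
      (by rw [pow_one, pow_zero, pow_one]; exact h1)).trans ?_
    rw [pow_one, pow_zero, sq]
    have h5 : U β 1 ≤ U β p := (U_lt hβ hp.one_lt).le
    exact mul_le_mul_of_nonneg_left (by linarith) (by linarith)
  · set w : TF β := (tt β ^ p - (σ (tt β)) ^ p) / p with hw
    have h1 : tt β ^ p - (σ (tt β)) ^ p = p * w := by
      rw [hw, mul_div_cancel₀ _ hp0]
    have h2 : φ₀ β w = y := by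
      have h3 := congrArg (φ₀ β) h1
      rw [map_sub, map_pow, map_pow, hσ, htt, map_mul, map_natCast, h] at h3
      exact (mul_left_cancel₀ hpC h3).symm
    have h4 : IsIntegral ℤ w := by
      rw [← h2] at hy
      exact (isIntegral_algHom_iff ((φ₀ β).restrictScalars ℤ) (φ₀ β).injective).1 hy
    refine (criterion hβ hint hrec hone (p := p) (i := 1) (j := 1) (σ := σ) (Or.inr ⟨rfl, ?_⟩) h4
      (by rw [pow_one]; exact h1)).trans ?_
    · intro h6
      apply hne
      rw [← hσ, h6, ← htt]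
      rfl
    · rw [pow_one, sq]

/-- the degree of the trace field is at most the degree of `β` -/
lemma finrank_le {β : ℝ} (hint : IsIntegral ℤ β) :
    Module.finrank ℚ (TF β) ≤ (minpoly ℤ β).natDegree := by
  have hintQ : IsIntegral ℚ β := hint.tower_top
  have hfd : FiniteDimensional ℚ (IntermediateField.adjoin ℚ {β}) :=
    IntermediateField.adjoin.finiteDimensional hintQ
  have hle : TF β ≤ IntermediateField.adjoin ℚ {β} := by
    rw [IntermediateField.adjoin_le_iff]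
    intro x hx
    rw [Set.mem_singleton_iff] at hx
    subst hx
    have h1 := IntermediateField.mem_adjoin_simple_self ℚ β
    exact add_mem h1 (inv_mem h1)
  have h1 : Module.finrank ℚ (IntermediateField.adjoin ℚ {β}) = (minpoly ℤ β).natDegree := by
    rw [IntermediateField.adjoin.finrank hintQ,
      minpoly.isIntegrallyClosed_eq_field_fractions' ℚ hint, (minpoly.monic hint).natDegree_map]
  rw [← h1]
  exact IntermediateField.finrank_le_of_le_right hle

/-- the numerical condition for `p = 11` -/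
lemma num_eleven {β : ℝ} (h1 : 1 < β) {n : ℕ}
    (h : β ^ 22 ≤ (11 / 4 : ℝ) ^ n) : (U β 11 + 2) ^ 2 < 16 * (((11 : ℕ) : ℝ) / 4) ^ n := by
  have h2 : 1 < β ^ 11 := one_lt_pow₀ h1 (by norm_num)
  have h3 : (β⁻¹) ^ 11 < 1 := by
    rw [inv_pow]
    exact inv_lt_one_of_one_lt₀ h2
  have h4 : 0 < (β⁻¹) ^ 11 := by positivity
  have h5 : U β 11 + 2 < 4 * β ^ 11 := by
    unfold U
    linarith
  have h6 : 0 < U β 11 + 2 := by
    have := U_two_le (show (0 : ℝ) < β by linarith) 11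
    linarith
  have h7 : (U β 11 + 2) ^ 2 < (4 * β ^ 11) ^ 2 := pow_lt_pow_left₀ h5 h6.le (by norm_num)
  have h8 : (4 * β ^ 11) ^ 2 = 16 * β ^ 22 := by ring
  rw [h8] at h7
  refine h7.trans_le ?_
  push_cast
  linarith

lemma num_quarter {β : ℝ} (h1 : 1 < β) (h2 : β ≤ 5 / 4) {n : ℕ} (hn : 2 ≤ n) :
    (U β 7 + 2) ^ 2 < 16 * (((7 : ℕ) : ℝ) / 4) ^ n := by
  have hU := U_mono h1 h2 7
  have h2U := U_two_le (show (0 : ℝ) < β by linarith) 7
  have h3 : ((7 : ℝ) / 4) ^ 2 ≤ ((7 : ℝ) / 4) ^ n := pow_le_pow_right₀ (by norm_num) hn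
  have h4 : (U β 7 + 2) ^ 2 ≤ (U (5 / 4) 7 + 2) ^ 2 :=
    pow_le_pow_left₀ (by linarith) (by linarith) 2
  have h6 : (U (5 / 4) 7 + 2) ^ 2 < 16 * ((7 : ℝ) / 4) ^ 2 := by
    unfold U
    norm_num
  push_cast
  linarith

/-- **Salem and Pisot numbers whose trace lies in a cyclotomic field.** -/
theorem main_lower {β : ℝ} (hβ : 1 < β) (hint : IsIntegral ℤ β)
    (hone : ∀ z : ℂ, aeval z (minpoly ℤ β) = 0 → z ≠ (β : ℂ) → ‖z‖ ≤ 1) (hc : CycTrace β) :
    5 / 4 < β ∧ (11 / 4 : ℝ) ^ (Module.finrank ℚ (TF β)) < β ^ 22 := by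
  by_cases hrec : IsReciprocal β
  · constructor
    · by_contra h
      push Not at h
      have h1 := main_rec hβ hint hone hrec hc (p := 7) (by norm_num)
      have h2 := num_quarter hβ h (two_le_finrank hβ hint hrec (by
        have : β⁻¹ < 1 := inv_lt_one_of_one_lt₀ hβ
        linarith))
      linarith
    · by_contra h
      push Not at h
      have h1 := main_rec hβ hint hone hrec hc (p := 11) (by norm_num)
      have h2 := num_eleven hβ h
      linarith
  · have h1 := nonrecip hβ hint hrec hone (fun z hz => real_conj (isAbelian hc) hint hz)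
    have hpos : 0 < (minpoly ℤ β).natDegree := minpoly.natDegree_pos hint
    constructor
    · by_contra h
      push Not at h
      have h2 : (27 / 4 : ℝ) ^ 1 ≤ (27 / 4 : ℝ) ^ (minpoly ℤ β).natDegree :=
        pow_le_pow_right₀ (by norm_num) hpos
      have h3 : β ^ 8 ≤ (5 / 4 : ℝ) ^ 8 := pow_le_pow_left₀ (by linarith) h 8
      norm_num at h2 h3
      linarith
    · have h2 : (11 / 4 : ℝ) ^ (Module.finrank ℚ (TF β)) ≤ (11 / 4 : ℝ) ^ (minpoly ℤ β).natDegree :=
        pow_le_pow_right₀ (by norm_num) (finrank_le hint)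
      have h3 : (11 / 4 : ℝ) ^ (minpoly ℤ β).natDegree < (27 / 4 : ℝ) ^ (minpoly ℤ β).natDegree :=
        pow_lt_pow_left₀ (by norm_num) (by norm_num) hpos.ne'
      have h4 : β ^ 8 ≤ β ^ 22 := pow_le_pow_right₀ hβ.le (by norm_num)
      linarith

/-- **Perron numbers whose trace lies in a cyclotomic field.** -/
theorem main_cyc {β : ℝ} (hP : IsPerron β) (hc : CycTrace β)
    (hb : β ≤ 5 / 4 ∨ β ^ 22 ≤ (11 / 4 : ℝ) ^ (Module.finrank ℚ (TF β))) :
    (ParryPowers β).Finite := by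
  by_contra hinf
  obtain ⟨h1, h2⟩ := main_lower hP.1 hP.2.1 (fun z hz hne => one_of_inf hP hinf hz hne) hc
  rcases hb with h | h
  · linarith
  · linarith

lemma lehmer_lt' {τ : ℝ} (h1 : 1 < τ)
    (h : τ ^ 10 + τ ^ 9 - τ ^ 7 - τ ^ 6 - τ ^ 5 - τ ^ 4 - τ ^ 3 + τ + 1 = 0) : τ < 1.18 := by
  by_contra hcon
  push Not at hcon
  obtain ⟨y, rfl⟩ : ∃ y : ℝ, τ = 1.18 + y := ⟨τ - 1.18, by ring⟩
  have hy : 0 ≤ y := by linarith
  ring_nf at h
  have : 0 < y * (1:ℝ) + 1 := by positivity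
  nlinarith [pow_nonneg hy 2, pow_nonneg hy 3, pow_nonneg hy 4, pow_nonneg hy 5, pow_nonneg hy 6,
    pow_nonneg hy 7, pow_nonneg hy 8, pow_nonneg hy 9, pow_nonneg hy 10]

/-- below Lehmer's number -/
theorem parry_near_lehmer {β τ : ℝ} (hP : IsPerron β) (hτ1 : 1 < τ)
    (hτ : τ ^ 10 + τ ^ 9 - τ ^ 7 - τ ^ 6 - τ ^ 5 - τ ^ 4 - τ ^ 3 + τ + 1 = 0) (hβτ : β < τ)
    (D : ℕ) (hD : NearCycNum D (β : ℂ)) (hdeg : 8 * D ^ 2 ≤ (minpoly ℤ β).natDegree) :
    (ParryPowers β).Finite := by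
  refine parry_near hP D hD ?_
  have h1 := lehmer_lt' hτ1 hτ
  have hβ := hP.1
  have hpos : 0 < (minpoly ℤ β).natDegree := minpoly.natDegree_pos hP.2.1
  have hlog : 4 * Real.log β < Real.log 2 := by
    have h2 : Real.log (β ^ 4) < Real.log 2 := by
      apply Real.log_lt_log (by positivity)
      have h3 : β ^ 4 ≤ (1.18 : ℝ) ^ 4 := pow_le_pow_left₀ (by linarith) (by linarith) 4
      norm_num at h3
      linarith
    rw [Real.log_pow] at h2
    exact_mod_cast h2
  have hdeg' : 8 * (D : ℝ) ^ 2 ≤ (minpoly ℤ β).natDegree := by exact_mod_cast hdeg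
  have hpos' : (0 : ℝ) < (minpoly ℤ β).natDegree := by exact_mod_cast hpos
  have hlogβ : 0 < Real.log β := Real.log_pos hβ
  calc 32 * (D : ℝ) ^ 2 * Real.log β = 8 * (D : ℝ) ^ 2 * (4 * Real.log β) := by ring
    _ ≤ (minpoly ℤ β).natDegree * (4 * Real.log β) :=
      mul_le_mul_of_nonneg_right hdeg' (by positivity)
    _ < (minpoly ℤ β).natDegree * Real.log 2 := mul_lt_mul_of_pos_left hlog hpos'

end Pool.Agent.X186.PP
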