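import Pool.Agent.X186.PP.B
import Pool.Agent.X186.MK.D

/-!
# Parry powers of Perron numbers of bounded degree over nearly abelian fields
-/

set_option autoImplicit false

open Polynomial Module NumberField

namespace Pool.Agent.X186.PP

open Pool.Agent.W738.SAL Pool.Agent.X186.MJ Pool.Agent.X186.MK Pool.Agent.W963.GE

/-- the degree of Salem and Pisot numbers -/
theorem degree_le (K : Type) [Field K] [NumberField K] (p : ℕ) (hp : p.Prime) (P : Ideal (𝓞 K))
    (hP : P.IsPrime) (hpP : (p : 𝓞 K) ∈ P) (m B D : ℕ) (hm : 1 ≤ m) :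
    ∃ C : ℝ, 0 < C ∧ ∀ (e : ℕ), 0 < e → ∀ β : ℝ, 1 < β → IsIntegral ℤ β →
      (∀ z : ℂ, aeval z (minpoly ℤ β) = 0 → z ≠ (β : ℂ) → ‖z‖ ≤ 1) →
      NearAb K P m B e D (β : ℂ) → ((minpoly ℤ β).natDegree : ℝ) ≤ C * e * Real.log β := by
  obtain ⟨C, hC, h⟩ := mahler_near K p hp P hP hpP m B D hm
  refine ⟨C, hC, ?_⟩
  intro e he β hβ hint hone hnear
  have hintC : IsIntegral ℤ (β : ℂ) := hint.map (Complex.ofRealHom.toIntAlgHom)
  have h0 : (β : ℂ) ≠ 0 := by
    have : β ≠ 0 := by linarith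
    exact_mod_cast this
  have hroot : ∀ m : ℕ, 0 < m → (β : ℂ) ^ m ≠ 1 := by
    intro m hm h
    have h1 : β ^ m = 1 := by exact_mod_cast h
    have h2 := one_lt_pow₀ hβ (show m ≠ 0 by omega)
    linarith
  have h1 := h e he β hintC h0 hroot hnear
  rwa [MM_eq hβ hint hone, minpoly_coe] at h1

/-- the finiteness -/
theorem finite_near (K : Type) [Field K] [NumberField K] (p : ℕ) (hp : p.Prime) (P : Ideal (𝓞 K))
    (hP : P.IsPrime) (hpP : (p : 𝓞 K) ∈ P) (m B D : ℕ) (hm : 1 ≤ m) (e : ℕ) (he : 0 < e) (T : ℝ) :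
    {β : ℝ | IsPerron β ∧ β ≤ T ∧ NearAb K P m B e D (β : ℂ) ∧
      ¬ (ParryPowers β).Finite}.Finite := by
  obtain ⟨C, hC, h⟩ := degree_le K p hp P hP hpP m B D hm
  set N : ℕ := ⌈C * e * Real.log T⌉₊ with hN
  set T' : NNReal := Real.toNNReal T with hT'
  have hfin := Polynomial.finite_mahlerMeasure_le N T'
  refine (hfin.biUnion (t := fun q => ((q.map (Int.castRingHom ℝ)).roots.toFinset : Set ℝ))
    (fun q _ => Finset.finite_toSet _)).subset ?_
  rintro β ⟨hPer, hβT, hnear, hinf⟩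
  have hone := fun (z : ℂ) (hz : aeval z (minpoly ℤ β) = 0) (hne : z ≠ (β : ℂ)) =>
    one_of_inf hPer hinf hz hne
  have h1 := h e he β hPer.1 hPer.2.1 hone hnear
  have hβ0 : 0 < β := by linarith [hPer.1]
  have hCe : 0 < C * e := by
    have : (0 : ℝ) < e := by exact_mod_cast he
    positivity
  rw [Set.mem_iUnion₂]
  refine ⟨minpoly ℤ β, ⟨?_, ?_⟩, ?_⟩
  · have h2 : ((minpoly ℤ β).natDegree : ℝ) ≤ C * e * Real.log T :=
      h1.trans (mul_le_mul_of_nonneg_left (Real.log_le_log hβ0 hβT) hCe.le)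
    have h3 := h2.trans (Nat.le_ceil _)
    exact_mod_cast h3
  · have h2 : ((minpoly ℤ β).map (Int.castRingHom ℂ)).mahlerMeasure = β := by
      have h3 := MM_eq hPer.1 hPer.2.1 hone
      unfold MM at h3
      rwa [minpoly_coe] at h3
    rw [h2, hT', Real.coe_toNNReal _ (by linarith)]
    exact hβT
  · rw [Finset.mem_coe, Multiset.mem_toFinset, mem_roots ((minpoly.monic hPer.2.1).map _).ne_zero,
      IsRoot, eval_map]
    exact minpoly.aeval ℤ β

end Pool.Agent.X186.PP
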