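import Mathlib

/-!
# Integers in cyclotomic fields modulo a prime
-/

set_option autoImplicit false

open Polynomial Module

namespace Pool.Agent.X186.PP

/-- `a ^ p` and `a (X ^ p)` agree modulo `p` -/
lemma pow_expand (p : ℕ) [Fact p.Prime] (a : ℤ[X]) :
    ∃ b : ℤ[X], a ^ p = expand ℤ p a + C (p : ℤ) * b := by
  have h1 : (a ^ p - expand ℤ p a).map (Int.castRingHom (ZMod p)) = 0 := by
    rw [Polynomial.map_sub, Polynomial.map_pow, map_expand, ZMod.expand_card, sub_self]
  have h2 : C (p : ℤ) ∣ a ^ p - expand ℤ p a := by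
    rw [C_dvd_iff_dvd_coeff]
    intro n
    have h3 := congrArg (fun f => f.coeff n) h1
    simp only [coeff_map, coeff_zero] at h3
    exact (ZMod.intCast_zmod_eq_zero_iff_dvd _ p).1 h3
  obtain ⟨b, hb⟩ := h2
  exact ⟨b, by rw [← hb]; ring⟩

lemma aeval_pow {p : ℕ} [Fact p.Prime] (a : ℤ[X]) {z : ℂ} (hz : IsIntegral ℤ z) :
    ∃ y : ℂ, IsIntegral ℤ y ∧ (aeval z a) ^ p = aeval (z ^ p) a + p * y := by
  obtain ⟨b, hb⟩ := pow_expand p a
  refine ⟨aeval z b, ?_, ?_⟩
  · exact IsIntegral.of_mem_of_fg (Algebra.adjoin ℤ {z}) hz.fg_adjoin_singleton _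
      (aeval_mem_adjoin_singleton _ _)
  · rw [← map_pow, hb, map_add, expand_aeval, map_mul, aeval_C]
    simp

/-- the field generated by a root of unity -/
lemma cyc_adjoin {m : ℕ} (hm : 0 < m) {ζ : ℂ} (hζ : IsPrimitiveRoot ζ m) :
    IsCyclotomicExtension {m} ℚ (IntermediateField.adjoin ℚ {ζ}) := by
  have hne : NeZero m := ⟨hm.ne'⟩
  let F : IntermediateField ℚ ℂ := IntermediateField.adjoin ℚ {ζ}
  have hζF : ζ ∈ F := IntermediateField.mem_adjoin_simple_self ℚ _
  have hζi : IsIntegral ℚ ζ :=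
    (IsIntegral.of_pow (R := ℤ) hm (by rw [hζ.pow_eq_one]; exact isIntegral_one)).tower_top
  have hfin : FiniteDimensional ℚ F := IntermediateField.adjoin.finiteDimensional hζi
  let z : F := IntermediateField.AdjoinSimple.gen ℚ ζ
  have hz : IsPrimitiveRoot z m :=
    IsPrimitiveRoot.of_map_of_injective (f := algebraMap F ℂ) hζ
      (FaithfulSMul.algebraMap_injective F ℂ)
  have h1 : IsCyclotomicExtension {m} ℚ (IntermediateField.adjoin ℚ {z}) :=
    hz.intermediateField_adjoin_isCyclotomicExtension ℚ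
  have h2 : IntermediateField.adjoin ℚ {z} = ⊤ := by
    rw [Field.primitive_element_iff_minpoly_natDegree_eq]
    exact (congrArg natDegree (IntermediateField.minpoly_gen ℚ ζ)).trans
      (IntermediateField.adjoin.finrank hζi).symm
  rw [h2] at h1
  exact @IsCyclotomicExtension.equiv {m} ℚ _ _ _ _ _ _ _ h1 IntermediateField.topEquiv

/-- integers of a cyclotomic field are integral polynomials in the root of unity -/
lemma exists_pol {m : ℕ} (hm : 0 < m) {ζ : ℂ} (hζ : IsPrimitiveRoot ζ m) {t : ℂ}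
    (ht : IsIntegral ℤ t) (hmem : t ∈ IntermediateField.adjoin ℚ {ζ}) :
    ∃ a : ℤ[X], t = aeval ζ a := by
  have hne : NeZero m := ⟨hm.ne'⟩
  let F : IntermediateField ℚ ℂ := IntermediateField.adjoin ℚ {ζ}
  have hζF : ζ ∈ F := IntermediateField.mem_adjoin_simple_self ℚ _
  have hcyc : IsCyclotomicExtension {m} ℚ F := cyc_adjoin hm hζ
  let z : F := ⟨ζ, hζF⟩
  have hz : IsPrimitiveRoot z m :=
    IsPrimitiveRoot.of_map_of_injective (f := algebraMap F ℂ) hζ
      (FaithfulSMul.algebraMap_injective F ℂ)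
  have hic : IsIntegralClosure (Algebra.adjoin ℤ {z}) ℤ F :=
    IsCyclotomicExtension.Rat.isIntegralClosure_adjoin_singleton hz
  have hxint : IsIntegral ℤ (⟨t, hmem⟩ : F) := by
    have h3 : IsIntegral ℤ (algebraMap F ℂ ⟨t, hmem⟩) := ht
    exact (isIntegral_algebraMap_iff (FaithfulSMul.algebraMap_injective F ℂ)).mp h3
  obtain ⟨y, hy⟩ := (hic.isIntegral_iff).mp hxint
  obtain ⟨a, ha⟩ : ∃ a : ℤ[X], aeval z a = (y : F) := by
    have hy2 : ∀ w : F, w ∈ Algebra.adjoin ℤ {z} → ∃ h : ℤ[X], aeval z h = w := by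
      intro w hw
      rw [Algebra.adjoin_singleton_eq_range_aeval] at hw
      exact hw
    exact hy2 _ y.2
  refine ⟨a, ?_⟩
  have h4 : aeval z a = (⟨t, hmem⟩ : F) := by
    rw [← hy]
    exact ha
  have h5 := congrArg (algebraMap F ℂ) h4
  rw [← aeval_algebraMap_apply] at h5
  exact h5.symm

/-- values at the other primitive roots of unity are conjugates -/
lemma conj_of_pow {m : ℕ} (hm : 0 < m) {ζ : ℂ} (hζ : IsPrimitiveRoot ζ m) (a : ℤ[X]) {ω : ℂ}
    (hω : IsPrimitiveRoot ω m) : aeval (aeval ω a) (minpoly ℚ (aeval ζ a)) = 0 := by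
  have h1 : aeval ζ ((minpoly ℚ (aeval ζ a)).comp (a.map (Int.castRingHom ℚ))) = 0 := by
    rw [aeval_comp]
    have h2 : aeval ζ (a.map (Int.castRingHom ℚ)) = aeval ζ a := by
      rw [aeval_def, eval₂_map, aeval_def]
      congr 1
    rw [h2]
    exact minpoly.aeval ℚ _
  have h3 := minpoly.dvd ℚ ζ h1
  rw [← cyclotomic_eq_minpoly_rat hζ hm, cyclotomic_eq_minpoly_rat hω hm] at h3
  obtain ⟨q, hq⟩ := h3
  have h4 : aeval ω ((minpoly ℚ (aeval ζ a)).comp (a.map (Int.castRingHom ℚ))) = 0 := by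
    rw [hq, map_mul, minpoly.aeval, zero_mul]
  rw [aeval_comp] at h4
  have h2 : aeval ω (a.map (Int.castRingHom ℚ)) = aeval ω a := by
    rw [aeval_def, eval₂_map, aeval_def]
    congr 1
  rwa [h2] at h4

/-- moving an element outside the smaller cyclotomic field -/
lemma exists_moved {m : ℕ} (hm : 0 < m) {ζ : ℂ} (hζ : IsPrimitiveRoot ζ m) (a : ℤ[X]) (p : ℕ)
    (hnot : aeval ζ a ∉ IntermediateField.adjoin ℚ {ζ ^ p}) :
    ∃ ω : ℂ, IsPrimitiveRoot ω m ∧ ω ^ p = ζ ^ p ∧ aeval ω a ≠ aeval ζ a := by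
  have hne : NeZero m := ⟨hm.ne'⟩
  let F : IntermediateField ℚ ℂ := IntermediateField.adjoin ℚ {ζ}
  have hζF : ζ ∈ F := IntermediateField.mem_adjoin_simple_self ℚ _
  have hcyc : IsCyclotomicExtension {m} ℚ F := cyc_adjoin hm hζ
  have hgal : IsGalois ℚ F := IsCyclotomicExtension.isGalois {m} ℚ F
  have hfin : FiniteDimensional ℚ F := IsCyclotomicExtension.finiteDimensional {m} ℚ F
  let z : F := ⟨ζ, hζF⟩
  have hz : IsPrimitiveRoot z m :=
    IsPrimitiveRoot.of_map_of_injective (f := algebraMap F ℂ) hζ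
      (FaithfulSMul.algebraMap_injective F ℂ)
  by_contra hcon
  push Not at hcon
  let K : IntermediateField ℚ F := IntermediateField.adjoin ℚ {z ^ p}
  have hfix : aeval z a ∈ K := by
    rw [← IsGalois.fixedField_fixingSubgroup K, IntermediateField.mem_fixedField_iff]
    intro g hg
    rw [IntermediateField.mem_fixingSubgroup_iff] at hg
    have h1 : g (z ^ p) = z ^ p := hg _ (IntermediateField.mem_adjoin_simple_self ℚ _)
    have h2 : IsPrimitiveRoot ((g z : F) : ℂ) m := by
      have h3 : IsPrimitiveRoot (g z) m := hz.map_of_injective g.injective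
      exact h3.map_of_injective (f := algebraMap F ℂ) (FaithfulSMul.algebraMap_injective F ℂ)
    have h4 : ((g z : F) : ℂ) ^ p = ζ ^ p := by
      rw [map_pow] at h1
      have := congrArg (algebraMap F ℂ) h1
      rw [map_pow, map_pow] at this
      exact this
    have h5 := hcon _ h2 h4
    have h6 : g (aeval z a) = aeval (g z) a := by
      have := aeval_algHom_apply (g.toAlgHom.restrictScalars ℤ) z a
      exact this.symm
    rw [h6]
    apply (FaithfulSMul.algebraMap_injective F ℂ)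
    rw [← aeval_algebraMap_apply, ← aeval_algebraMap_apply]
    exact h5
  apply hnot
  have h7 : K.map (algebraMap F ℂ).toRatAlgHom = IntermediateField.adjoin ℚ {ζ ^ p} := by
    rw [IntermediateField.adjoin_map]
    congr 1
    simp only [Set.image_singleton]
    rfl
  rw [← h7]
  refine ⟨aeval z a, hfix, ?_⟩
  have h8 := aeval_algebraMap_apply ℂ z a
  exact h8.symm

/-- **Frobenius or inertia.** An integer `t` of a cyclotomic field has a conjugate `s` with
`t ^ p ≡ s` or a conjugate `s ≠ t` with `t ^ p ≡ s ^ p` modulo `p`. -/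
theorem frob_or_inertia (p : ℕ) [hp : Fact p.Prime] {t : ℂ} (ht : IsIntegral ℤ t) (m : ℕ) :
    ∀ ζ : ℂ, 0 < m → IsPrimitiveRoot ζ m → t ∈ IntermediateField.adjoin ℚ {ζ} →
    ∃ s y : ℂ, aeval s (minpoly ℚ t) = 0 ∧ IsIntegral ℤ y ∧
      (t ^ p - s = p * y ∨ (s ≠ t ∧ t ^ p - s ^ p = p * y)) := by
  induction m using Nat.strong_induction_on with
  | _ m ih =>
    intro ζ hm hζ hmem
    have hζint : IsIntegral ℤ ζ :=
      IsIntegral.of_pow hm (by rw [hζ.pow_eq_one]; exact isIntegral_one)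
    obtain ⟨a, rfl⟩ := exists_pol hm hζ ht hmem
    obtain ⟨y, hy, h1⟩ := aeval_pow (p := p) a hζint
    by_cases hpm : p ∣ m
    · by_cases hsm : aeval ζ a ∈ IntermediateField.adjoin ℚ {ζ ^ p}
      · obtain ⟨k, hk⟩ := hpm
        have hkm : k < m := by
          have h2 : 0 < k := Nat.pos_of_ne_zero (by rintro rfl; omega)
          have h3 := hp.out.two_le
          rw [hk]
          nlinarith
        have hk0 : 0 < k := Nat.pos_of_ne_zero (by rintro rfl; omega)
        exact ih k hkm (ζ ^ p) hk0 (hζ.pow hm hk) hsm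
      · obtain ⟨ω, hω, hωp, hne⟩ := exists_moved hm hζ a p hsm
        have hωint : IsIntegral ℤ ω :=
          IsIntegral.of_pow hm (by rw [hω.pow_eq_one]; exact isIntegral_one)
        obtain ⟨y', hy', h2⟩ := aeval_pow (p := p) a hωint
        refine ⟨aeval ω a, y - y', conj_of_pow hm hζ a hω, hy.sub hy', Or.inr ⟨hne, ?_⟩⟩
        rw [h1, h2, hωp]
        ring
    · refine ⟨aeval (ζ ^ p) a, y, conj_of_pow hm hζ a (hζ.pow_of_coprime p ?_), hy, Or.inl ?_⟩
      · exact (Nat.Prime.coprime_iff_not_dvd hp.out).mpr hpm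
      · rw [h1]
        ring

end Pool.Agent.X186.PP
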