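import Pool.Agent.W738.SAL.F
import Pool.Agent.X186.PP.A
import Pool.Agent.X186.MJ.M

/-!
# Parry powers of Perron numbers and cyclotomic fields
-/

set_option autoImplicit false

open Polynomial Module

namespace Pool.Agent.X186.PP

open Pool.Agent.W738.SAL Pool.Agent.X186.MJ Pool.Agent.W963.GE

/-- `β + β⁻¹` lies in a cyclotomic field -/
def CycTrace (β : ℝ) : Prop :=
  ∃ (m : ℕ) (ζ : ℂ), 0 < m ∧ IsPrimitiveRoot ζ m ∧
    ((β + β⁻¹ : ℝ) : ℂ) ∈ IntermediateField.adjoin ℚ {ζ}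

lemma minpoly_coe (β : ℝ) : minpoly ℤ (β : ℂ) = minpoly ℤ β :=
  minpoly.algHom_eq (Complex.ofRealHom.toIntAlgHom) Complex.ofReal_injective β

/-- the Mahler measure -/
lemma MM_eq {β : ℝ} (hβ : 1 < β) (hint : IsIntegral ℤ β)
    (hone : ∀ z : ℂ, aeval z (minpoly ℤ β) = 0 → z ≠ (β : ℂ) → ‖z‖ ≤ 1) :
    MM (β : ℂ) = β := by
  have hintC : IsIntegral ℤ (β : ℂ) := hint.map (Complex.ofRealHom.toIntAlgHom)
  rw [Pool.Agent.TH53.UG.MM_prod hintC]
  rw [Finset.prod_eq_single (β : ℂ)]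
  · rw [Complex.norm_real, Real.norm_eq_abs, abs_of_pos (by linarith), max_eq_right hβ.le]
  · intro a ha hne
    rw [Pool.Agent.TH53.UG.mem_conjs hintC, minpoly_coe] at ha
    exact max_eq_left (hone a ha hne)
  · intro h
    exact absurd ((Pool.Agent.TH53.UG.mem_conjs hintC).mpr (minpoly.aeval ℤ _)) h

/-- **Degree over cyclotomic fields.** -/
theorem parry_near {β : ℝ} (hP : IsPerron β) (D : ℕ) (hD : NearCycNum D (β : ℂ))
    (hlt : 32 * (D : ℝ) ^ 2 * Real.log β < (minpoly ℤ β).natDegree * Real.log 2) :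
    (ParryPowers β).Finite := by
  by_contra hinf
  have hone := fun (z : ℂ) (hz : aeval z (minpoly ℤ β) = 0) (hne : z ≠ (β : ℂ)) =>
    one_of_inf hP hinf hz hne
  have hintC : IsIntegral ℤ (β : ℂ) := hP.2.1.map (Complex.ofRealHom.toIntAlgHom)
  have hβ := hP.1
  have h0 : (β : ℂ) ≠ 0 := by
    have : β ≠ 0 := by linarith
    exact_mod_cast this
  have hroot : ∀ m > 0, (β : ℂ) ^ m ≠ 1 := by
    intro m hm h
    have h1 : β ^ m = 1 := by exact_mod_cast h
    have h2 := one_lt_pow₀ hβ (show m ≠ 0 by omega)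
    linarith
  have h1 := mahler_cyc hintC h0 hroot D hD
  rw [MM_eq hβ hP.2.1 hone, minpoly_coe] at h1
  linarith

/-- the conjugates of `β⁻¹` -/
lemma recip_of {β : ℝ} (hint : IsIntegral ℤ β) (hβ0 : β ≠ 0) {z : ℂ} (hz0 : z ≠ 0)
    (hz : aeval z (minpoly ℤ β) = 0) (hz' : aeval z⁻¹ (minpoly ℤ β) = 0) : IsReciprocal β := by
  have hzint : IsIntegral ℤ z := ⟨minpoly ℤ β, minpoly.monic hint, by rw [← aeval_def]; exact hz⟩
  have h1 : minpoly ℤ z = minpoly ℤ β := by
    have h2 : minpoly ℤ z ∣ minpoly ℤ β := minpoly.isIntegrallyClosed_dvd hzint hz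
    have h3 := (minpoly.irreducible hzint).associated_of_dvd (minpoly.irreducible hint) h2
    exact eq_of_monic_of_associated (minpoly.monic hzint) (minpoly.monic hint) h3
  let _ := invertibleOfNonzero (inv_ne_zero hz0)
  let _ := invertibleOfNonzero (inv_ne_zero hβ0)
  have h4 : aeval z (minpoly ℤ β).reverse = 0 := by
    have h5 := (eval₂_reverse_eq_zero_iff (algebraMap ℤ ℂ) z⁻¹ (minpoly ℤ β)).mpr
      (by rw [← aeval_def]; exact hz')
    rw [invOf_eq_inv, inv_inv] at h5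
    exact h5
  have h5 : minpoly ℤ β ∣ (minpoly ℤ β).reverse := by
    conv_lhs => rw [← h1]
    exact minpoly.isIntegrallyClosed_dvd hzint h4
  have h6 : aeval β (minpoly ℤ β).reverse = 0 := by
    obtain ⟨q, hq⟩ := h5
    rw [hq, map_mul, minpoly.aeval, zero_mul]
  have h7 := (eval₂_reverse_eq_zero_iff (algebraMap ℤ ℝ) β⁻¹ (minpoly ℤ β)).mp
    (by rw [invOf_eq_inv, inv_inv, ← aeval_def]; exact h6)
  exact h7

/-- the trace field is abelian -/
lemma isAbelian {β : ℝ} (hc : CycTrace β) : IsAbelianGalois ℚ (TF β) := by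
  obtain ⟨m, ζ, hm, hζ, hmem⟩ := hc
  have hne : NeZero m := ⟨hm.ne'⟩
  have hcyc := cyc_adjoin hm hζ
  have hab : IsAbelianGalois ℚ (IntermediateField.adjoin ℚ {ζ}) :=
    IsCyclotomicExtension.isAbelianGalois {m} ℚ _
  set M := IntermediateField.adjoin ℚ {ζ} with hM
  have hle : TF β ≤ M.comap (Complex.ofRealAm.restrictScalars ℚ) := by
    rw [IntermediateField.adjoin_le_iff]
    intro x hx
    rw [Set.mem_singleton_iff] at hx
    subst hx
    exact hmem
  let f : TF β →+* M := (φ₀ β : TF β →+* ℂ).codRestrict M (fun x => hle x.2)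
  exact IsAbelianGalois.of_algHom f.toRatAlgHom

/-- the conjugates of the trace -/
lemma exists_galois_conj {β : ℝ} (hab : IsAbelianGalois ℚ (TF β))
    (hint : IsIntegral ℚ (β + β⁻¹)) {s : ℂ}
    (hs : aeval s (minpoly ℚ ((β + β⁻¹ : ℝ) : ℂ)) = 0) :
    ∃ σ : TF β ≃ₐ[ℚ] TF β, φ₀ β (σ (tt β)) = s := by
  have hfd : FiniteDimensional ℚ (TF β) :=
    IntermediateField.adjoin.finiteDimensional hint
  have h1 : minpoly ℚ ((β + β⁻¹ : ℝ) : ℂ) = minpoly ℚ (tt β) := by
    have h2 : φ₀ β (tt β) = ((β + β⁻¹ : ℝ) : ℂ) := φ₀_apply β _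
    rw [← h2]
    exact minpoly.algHom_eq (φ₀ β) (φ₀ β).injective _
  rw [h1] at hs
  have hti : IsIntegral ℚ (tt β) := Algebra.IsIntegral.isIntegral _
  have h3 : ((minpoly ℚ (tt β)).map (algebraMap ℚ (TF β))).Splits :=
    Normal.splits (inferInstance) (tt β)
  obtain ⟨u, hu1, hu⟩ : ∃ u ∈ (minpoly ℚ (tt β)).rootSet (TF β), φ₀ β u = s := by
    have h4 := h3.image_rootSet (φ₀ β)
    have h5 : s ∈ (minpoly ℚ (tt β)).rootSet ℂ := by
      rw [mem_rootSet]
      exact ⟨minpoly.ne_zero hti, hs⟩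
    rw [← h4] at h5
    exact h5
  have h4 : IsConjRoot ℚ u (tt β) := by
    rw [mem_rootSet] at hu1
    exact (minpoly.eq_of_irreducible_of_monic (minpoly.irreducible hti) hu1.2
      (minpoly.monic hti)).symm
  obtain ⟨σ, hσ⟩ := isConjRoot_iff_exists_algEquiv.mp h4
  exact ⟨σ, by rw [hσ, hu]⟩

/-- the conjugates of the trace are real -/
lemma real_conj {β : ℝ} (hab : IsAbelianGalois ℚ (TF β)) (hint : IsIntegral ℤ β)
    {z : ℂ} (hz : aeval z (minpoly ℤ β) = 0) : (z + z⁻¹).im = 0 := by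
  have hintQ : IsIntegral ℚ β := hint.tower_top
  have htint : IsIntegral ℚ (β + β⁻¹) := hintQ.add hintQ.inv
  have hfd : FiniteDimensional ℚ (IntermediateField.adjoin ℚ {β}) :=
    IntermediateField.adjoin.finiteDimensional hintQ
  have hz' : aeval z (minpoly ℚ (IntermediateField.AdjoinSimple.gen ℚ β)) = 0 := by
    have h9 : minpoly ℚ (algebraMap (IntermediateField.adjoin ℚ {β}) ℝ
        (IntermediateField.AdjoinSimple.gen ℚ β)) =
        minpoly ℚ (IntermediateField.AdjoinSimple.gen ℚ β) :=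
      minpoly.algebraMap_eq (FaithfulSMul.algebraMap_injective _ ℝ) _
    rw [← h9]
    show aeval z (minpoly ℚ β) = 0
    rw [minpoly.isIntegrallyClosed_eq_field_fractions' ℚ hint, aeval_map_algebraMap]
    exact hz
  obtain ⟨ψ, hψ⟩ := IntermediateField.exists_algHom_of_splits_of_aeval (F := ℚ)
    (E := IntermediateField.adjoin ℚ {β}) (K := ℂ)
    (fun s => ⟨Algebra.IsIntegral.isIntegral s, IsAlgClosed.splits _⟩) hz'
  set g := IntermediateField.AdjoinSimple.gen ℚ β with hg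
  have h1 : ψ (g + g⁻¹) = z + z⁻¹ := by rw [map_add, map_inv₀, hψ]
  have h2 : minpoly ℚ (g + g⁻¹) = minpoly ℚ ((β + β⁻¹ : ℝ) : ℂ) := by
    have h3 : minpoly ℚ ((β + β⁻¹ : ℝ) : ℂ) = minpoly ℚ (β + β⁻¹) :=
      minpoly.algHom_eq (Complex.ofRealHom.toRatAlgHom) Complex.ofReal_injective _
    have h4 : minpoly ℚ (algebraMap (IntermediateField.adjoin ℚ {β}) ℝ (g + g⁻¹)) =
        minpoly ℚ (g + g⁻¹) := minpoly.algebraMap_eq (FaithfulSMul.algebraMap_injective _ ℝ) _
    rw [h3, ← h4]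
    rfl
  have h3 : aeval (z + z⁻¹) (minpoly ℚ ((β + β⁻¹ : ℝ) : ℂ)) = 0 := by
    rw [← h1, ← h2]
    exact (aeval_algHom_apply ψ _ _).trans (by rw [minpoly.aeval, map_zero])
  obtain ⟨σ, hσ⟩ := exists_galois_conj hab htint h3
  rw [← hσ, φ₀_apply, Complex.ofReal_im]

/-- Perron numbers with real traces which are not reciprocal -/
lemma nonrecip {β : ℝ} (hβ : 1 < β) (hint : IsIntegral ℤ β) (hrec : ¬ IsReciprocal β)
    (hone : ∀ z : ℂ, aeval z (minpoly ℤ β) = 0 → z ≠ (β : ℂ) → ‖z‖ ≤ 1)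
    (hreal : ∀ z : ℂ, aeval z (minpoly ℤ β) = 0 → (z + z⁻¹).im = 0) :
    (27 / 4 : ℝ) ^ (minpoly ℤ β).natDegree ≤ β ^ 8 := by
  have hintC : IsIntegral ℤ (β : ℂ) := hint.map (Complex.ofRealHom.toIntAlgHom)
  have h0 : (β : ℂ) ≠ 0 := by
    have : β ≠ 0 := by linarith
    exact_mod_cast this
  have hroot : ∀ m > 0, (β : ℂ) ^ m ≠ 1 := by
    intro m hm h
    have h1 : β ^ m = 1 := by exact_mod_cast h
    have h2 := one_lt_pow₀ hβ (show m ≠ 0 by omega)
    linarith
  have h1 := Pool.Agent.TH53.UG.totally_real hintC h0 hroot ?_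
  · rwa [MM_eq hβ hint hone, minpoly_coe] at h1
  · intro z hz
    rw [minpoly_coe] at hz
    by_cases hz0 : z = 0
    · rw [hz0, Complex.zero_im]
    have h2 := hreal z hz
    have h3 : z.im * (1 - (Complex.normSq z)⁻¹) = 0 := by
      rw [Complex.add_im, Complex.inv_im] at h2
      rw [← h2]
      ring
    rcases mul_eq_zero.mp h3 with h4 | h4
    · exact h4
    · exfalso
      have h5 : Complex.normSq z = 1 := by
        have h6 : (Complex.normSq z)⁻¹ = 1 := by linarith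
        rwa [inv_eq_one] at h6
      have h6 : z⁻¹ = (starRingEnd ℂ) z := by
        rw [Complex.inv_def, h5]
        simp
      apply hrec
      refine recip_of hint (by linarith) hz0 hz ?_
      rw [h6]
      have h7 := Polynomial.aeval_algHom_apply ((starRingEnd ℂ).toIntAlgHom) z (minpoly ℤ β)
      have h8 : aeval ((starRingEnd ℂ) z) (minpoly ℤ β) = (starRingEnd ℂ) (aeval z (minpoly ℤ β)) :=
        h7
      rw [h8, hz, map_zero]

end Pool.Agent.X186.PP
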